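import Mathlib
import Pool.Agent.Results.MP_658336_nt.Progressions

set_option autoImplicit false

namespace Pool.Agent.Results.MP_0e3417_nt.ProgressionUnions

open Pool.Agent.Results.MP_658336_nt

/-- (1) For all `c` and `r` there are only finitely many finite sets of positive integers with at
least two elements, reciprocal sum `1` and gaps at most `c` which are unions of `r` arithmetic
progressions (some of which may be empty).

(2) For all `c` and `q` there are only finitely many finite sets of positive integers with at least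
two elements, reciprocal sum `1` and gaps at most `c` which are the part in an interval of a set that
is periodic modulo `q`.

(3) For every `M` there are only finitely many finite sets of positive integers with reciprocal sum
`1` which contain an arithmetic progression with at least `max A / M` terms. -/
theorem result :
    (∀ c r : ℕ, {A : Finset ℕ | (∀ a ∈ A, 0 < a) ∧ 2 ≤ A.card ∧
      (∑ n ∈ A, (1 : ℚ) / (n : ℚ)) = 1 ∧
      (∀ x ∈ A, ∀ y ∈ A, x < y → (∀ z ∈ A, ¬ (x < z ∧ z < y)) → y - x ≤ c) ∧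
      ∃ u d L : Fin r → ℕ, (∀ i, 0 < d i) ∧
        A = Finset.univ.biUnion
          (fun i => (Finset.range (L i)).image (fun t => u i + d i * t))}.Finite) ∧
    (∀ c q : ℕ, 0 < q → {A : Finset ℕ | (∀ a ∈ A, 0 < a) ∧ 2 ≤ A.card ∧
      (∑ n ∈ A, (1 : ℚ) / (n : ℚ)) = 1 ∧
      (∀ x ∈ A, ∀ y ∈ A, x < y → (∀ z ∈ A, ¬ (x < z ∧ z < y)) → y - x ≤ c) ∧
      ∃ (u v : ℕ) (P : Set ℕ), (∀ n, n ∈ P ↔ n + q ∈ P) ∧
        ∀ a, a ∈ A ↔ u ≤ a ∧ a ≤ v ∧ a ∈ P}.Finite) ∧
    (∀ M : ℕ, {A : Finset ℕ | (∀ a ∈ A, 0 < a) ∧ (∑ n ∈ A, (1 : ℚ) / (n : ℚ)) = 1 ∧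
      ∃ u d L : ℕ, 0 < d ∧ (∀ t < L, u + d * t ∈ A) ∧ ∀ a ∈ A, a ≤ M * L}.Finite) := by
  have h1 : ∀ c r : ℕ, {A : Finset ℕ | (∀ a ∈ A, 0 < a) ∧ 2 ≤ A.card ∧
      (∑ n ∈ A, (1 : ℚ) / (n : ℚ)) = 1 ∧
      (∀ x ∈ A, ∀ y ∈ A, x < y → (∀ z ∈ A, ¬ (x < z ∧ z < y)) → y - x ≤ c) ∧
      ∃ u d L : Fin r → ℕ, (∀ i, 0 < d i) ∧
        A = Finset.univ.biUnion
          (fun i => (Finset.range (L i)).image (fun t => u i + d i * t))}.Finite := by
    intro c r
    apply (Progressions.result.2.2 c r).subset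
    rintro A ⟨h1, -, h2, h3, h4⟩
    exact ⟨h1, h2, h3, h4⟩
  refine ⟨h1, ?_, Progressions.result.2.1⟩
  intro c q hq
  apply (h1 c q).subset
  rintro A ⟨hA, hcard, hsum, hgap, u, v, P, hP, hmem⟩
  refine ⟨hA, hcard, hsum, hgap, ?_⟩
  classical
  have hPt : ∀ n t, n ∈ P ↔ n + q * t ∈ P := by
    intro n t
    induction t with
    | zero => simp
    | succ t ih => rw [ih, hP]; ring_nf
  -- for the residue `u + i` the progression `u + i, u + i + q, …` up to `v`
  refine ⟨fun i => u + i, fun _ => q,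
    fun i => if u + (i : ℕ) ∈ P ∧ u + (i : ℕ) ≤ v then (v - (u + i)) / q + 1 else 0,
    fun _ => hq, ?_⟩
  ext a
  rw [hmem, Finset.mem_biUnion]
  constructor
  · rintro ⟨ha1, ha2, ha3⟩
    have hm := Nat.mod_lt (a - u) hq
    have hdm := Nat.mod_add_div (a - u) q
    refine ⟨⟨(a - u) % q, hm⟩, Finset.mem_univ _, ?_⟩
    rw [Finset.mem_image]
    have e1 : a = u + (a - u) % q + q * ((a - u) / q) := by omega
    refine ⟨(a - u) / q, ?_, e1.symm⟩
    have h2 : u + (a - u) % q ∈ P := by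
      rw [hPt _ ((a - u) / q), ← e1]
      exact ha3
    have h3 : u + (a - u) % q ≤ v := by
      have := Nat.mod_le (a - u) q
      omega
    have h4 : (a - u) / q * q = q * ((a - u) / q) := mul_comm _ _
    have h5 : (a - u) / q ≤ (v - (u + (a - u) % q)) / q := by
      rw [Nat.le_div_iff_mul_le hq]
      omega
    rw [Finset.mem_range]
    show (a - u) / q < if u + (a - u) % q ∈ P ∧ u + (a - u) % q ≤ v then
      (v - (u + (a - u) % q)) / q + 1 else 0
    rw [if_pos ⟨h2, h3⟩]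
    omega
  · rintro ⟨i, -, hi⟩
    rw [Finset.mem_image] at hi
    obtain ⟨t, ht, rfl⟩ := hi
    rw [Finset.mem_range] at ht
    change t < if u + (i : ℕ) ∈ P ∧ u + (i : ℕ) ≤ v then (v - (u + i)) / q + 1 else 0 at ht
    change u ≤ u + (i : ℕ) + q * t ∧ u + (i : ℕ) + q * t ≤ v ∧ u + (i : ℕ) + q * t ∈ P
    split_ifs at ht with hc
    · have h5 : t ≤ (v - (u + i)) / q := by omega
      rw [Nat.le_div_iff_mul_le hq] at h5
      have h4 : t * q = q * t := mul_comm _ _
      have hc2 := hc.2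
      refine ⟨by omega, by omega, ?_⟩
      exact (hPt _ t).1 hc.1
    · omega

end Pool.Agent.Results.MP_0e3417_nt.ProgressionUnions
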